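import Pool.Agent.helper73.TF.Spec

set_option autoImplicit false

namespace Pool.Agent.TF

open Matrix Pool.Agent.H48SL
open scoped Pointwise

theorem THN_nsq {n : ℕ} (x : Fin n → ℂ) : x ⬝ᵥ star x = (nsq x : ℂ) := by
  unfold nsq dotProduct
  rw [Complex.ofReal_sum]
  refine Finset.sum_congr rfl fun i _ => ?_
  rw [Pi.star_apply, Complex.sq_norm, ← Complex.mul_conj]
  rfl

theorem THN_pos {n : ℕ} {x : Fin n → ℂ} (hx : x ≠ 0) : (nsq x : ℂ) ≠ 0 := by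
  obtain ⟨i, hi⟩ := Function.ne_iff.1 hx
  have h1 : 0 < nsq x := by
    unfold nsq
    refine Finset.sum_pos' (fun j _ => by positivity) ⟨i, Finset.mem_univ i, ?_⟩
    have h2 : 0 < ‖x i‖ := norm_pos_iff.2 hi
    positivity
  exact_mod_cast h1.ne'

/-- the action on the projectors -/
noncomputable def THN_T {n : ℕ} (g : SLZ n) (M : Matrix (Fin n) (Fin n) ℂ) : Matrix (Fin n) (Fin n) ℂ :=
  (trace (cm g * M * (cm g)ᴴ))⁻¹ • (cm g * M * (cm g)ᴴ)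

theorem THN_cm_mul {n : ℕ} (g h : SLZ n) : cm (g * h) = cm g * cm h := by
  exact Matrix.map_mul (L := (g : Matrix (Fin n) (Fin n) ℤ)) (M := (h : Matrix (Fin n) (Fin n) ℤ))
    (f := Int.castRingHom ℂ)

theorem THN_cm_one {n : ℕ} : cm (1 : SLZ n) = 1 := by
  exact Matrix.map_one (Int.castRingHom ℂ) (map_zero _) (map_one _)

theorem THN_ne {n : ℕ} (g : SLZ n) {y : Fin n → ℂ} (hy : y ≠ 0) : cm g *ᵥ y ≠ 0 := by
  intro h
  apply hy
  have h1 : cm g⁻¹ *ᵥ (cm g *ᵥ y) = y := by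
    rw [mulVec_mulVec, ← THN_cm_mul, inv_mul_cancel, THN_cm_one, one_mulVec]
  rw [← h1, h, mulVec_zero]

theorem THN_conj {n : ℕ} (g : SLZ n) (y : Fin n → ℂ) : cm g * pr y * (cm g)ᴴ =
    ((nsq y : ℂ)⁻¹) • vecMulVec (cm g *ᵥ y) (star (cm g *ᵥ y)) := by
  unfold pr
  rw [Matrix.mul_smul, Matrix.smul_mul, mul_vecMulVec, vecMulVec_mul, ← star_mulVec]

theorem THN_trace {n : ℕ} (g : SLZ n) (y : Fin n → ℂ) : trace (cm g * pr y * (cm g)ᴴ) =
    (nsq y : ℂ)⁻¹ * (nsq (cm g *ᵥ y) : ℂ) := by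
  rw [THN_conj, trace_smul, trace_vecMulVec, THN_nsq, smul_eq_mul]

theorem THN_pr {n : ℕ} (g : SLZ n) {y : Fin n → ℂ} (hy : y ≠ 0) : THN_T g (pr y) = pr (cm g *ᵥ y) := by
  unfold THN_T
  rw [THN_trace, THN_conj, smul_smul]
  have h1 := THN_pos hy
  have h2 := THN_pos (THN_ne g hy)
  conv_rhs => unfold pr
  congr 1
  field_simp

theorem THN_tr_ne {n : ℕ} (g : SLZ n) {y : Fin n → ℂ} (hy : y ≠ 0) : trace (cm g * pr y * (cm g)ᴴ) ≠ 0 := by
  rw [THN_trace]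
  exact mul_ne_zero (inv_ne_zero (THN_pos hy)) (THN_pos (THN_ne g hy))

theorem THN_cont {n : ℕ} (g : SLZ n) : ContinuousOn (THN_T g) (pr '' {y : Fin n → ℂ | y ≠ 0}) := by
  unfold THN_T
  have h1 : Continuous fun M : Matrix (Fin n) (Fin n) ℂ => cm g * M * (cm g)ᴴ :=
    (continuous_const.matrix_mul continuous_id).matrix_mul continuous_const
  refine ContinuousOn.smul (ContinuousOn.inv₀ h1.matrix_trace.continuousOn ?_) h1.continuousOn
  rintro M ⟨y, hy, rfl⟩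
  exact THN_tr_ne g hy

theorem THN_sphere {n : ℕ} (hPRC : PRC_stmt) {y : Fin n → ℂ} (hy : y ≠ 0) :
    pr y ∈ pr '' (Metric.sphere (0 : Fin n → ℂ) 1) := by
  have h0 : (‖y‖ : ℂ) ≠ 0 := by exact_mod_cast (norm_pos_iff.2 hy).ne'
  refine ⟨((‖y‖ : ℂ)⁻¹) • y, ?_, (hPRC n).2.1 _ y (inv_ne_zero h0)⟩
  rw [mem_sphere_zero_iff_norm, norm_smul, norm_inv, Complex.norm_real, norm_norm]
  exact inv_mul_cancel₀ (norm_pos_iff.2 hy).ne'

theorem THN (hTRK : TRK_stmt) (hCVR : CVR_stmt) (hFOR : FOR_stmt) (hIRR : IRR_stmt) (hPRC : PRC_stmt) :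
    THN_stmt := by
  intro n hn H hZ hF Xs hXs A hA hex hsub
  obtain ⟨x, hx, hfin⟩ := hex
  have hRk := hTRK n hn H hZ hF
  have hcount := hCVR n H hRk Xs hXs (A : Set (SLZ n)) (fun g hg => hA hg) x hx hfin
  set S : Set (Matrix (Fin n) (Fin n) ℂ) := {M | ∃ g ∈ H, M = pr (cm g *ᵥ x)} with hS
  have hSsub : S ⊆ {M | ∃ g ∈ Xs.prod * (A : Set (SLZ n)), M = pr (cm g *ᵥ x)} := by
    rintro M ⟨g, hg, rfl⟩
    exact ⟨g, hsub hg, rfl⟩
  set K : Set (Matrix (Fin n) (Fin n) ℂ) := closure S with hK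
  have hKc : K.Countable := hcount.mono (closure_mono hSsub)
  set Q : Set (Matrix (Fin n) (Fin n) ℂ) := pr '' (Metric.sphere (0 : Fin n → ℂ) 1) with hQ
  have hne : ∀ y ∈ Metric.sphere (0 : Fin n → ℂ) 1, y ≠ 0 := by
    rintro y hy rfl
    rw [mem_sphere_zero_iff_norm, norm_zero] at hy
    exact zero_ne_one hy
  have hQc : IsCompact Q := (isCompact_sphere (0 : Fin n → ℂ) 1).image_of_continuousOn
    ((hPRC n).1.mono fun y hy => hne y hy)
  have hSQ : S ⊆ Q := by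
    rintro M ⟨g, _, rfl⟩
    exact THN_sphere hPRC (THN_ne g hx)
  have hKQ : K ⊆ Q := closure_minimal hSQ hQc.isClosed
  have hKcomp : IsCompact K := hQc.of_isClosed_subset isClosed_closure hKQ
  have hrep : ∀ M ∈ K, ∃ y : Fin n → ℂ, y ≠ 0 ∧ M = pr y := by
    intro M hM
    obtain ⟨y, hy, rfl⟩ := hKQ hM
    exact ⟨y, hne y hy, rfl⟩
  have hKsub : K ⊆ pr '' {y : Fin n → ℂ | y ≠ 0} := by
    intro M hM
    obtain ⟨y, hy, rfl⟩ := hrep M hM
    exact ⟨y, hy, rfl⟩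
  have hmap : ∀ g ∈ H, ∀ M ∈ K, THN_T g M ∈ K := by
    intro g hg M hM
    have h1 : ContinuousOn (THN_T g) (closure S) := (THN_cont g).mono hKsub
    have h2 := h1.image_closure ⟨M, hM, rfl⟩
    refine closure_mono ?_ h2
    rintro _ ⟨_, ⟨h, hh, rfl⟩, rfl⟩
    rw [THN_pr g (THN_ne h hx), mulVec_mulVec, ← THN_cm_mul]
    exact ⟨g * h, H.mul_mem hg hh, rfl⟩
  have : CompactSpace ↥K := isCompact_iff_compactSpace.1 hKcomp
  have : Countable ↥K := hKc.to_subtype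
  have : Nonempty ↥K := ⟨⟨pr x, subset_closure ⟨1, H.one_mem, by rw [THN_cm_one, one_mulVec]⟩⟩⟩
  obtain ⟨⟨M, hM⟩, hfinM⟩ := hFOR (↥H) (↥K) (fun g M => ⟨THN_T (g : SLZ n) M, hmap g g.2 M M.2⟩)
    (fun g => by
      refine Continuous.subtype_mk ?_ _
      exact continuousOn_iff_continuous_restrict.1 ((THN_cont (g : SLZ n)).mono hKsub))
    (fun M => by
      obtain ⟨y, hy, h1⟩ := hrep M M.2
      apply Subtype.ext
      show THN_T (1 : SLZ n) M = M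
      rw [h1, THN_pr 1 hy, THN_cm_one, one_mulVec])
    (fun g h M => by
      obtain ⟨y, hy, h1⟩ := hrep M M.2
      apply Subtype.ext
      show THN_T ((g : SLZ n) * (h : SLZ n)) M = THN_T (g : SLZ n) (THN_T (h : SLZ n) M)
      rw [h1, THN_pr _ hy, THN_pr _ hy, THN_pr _ (THN_ne _ hy), mulVec_mulVec, THN_cm_mul])
  obtain ⟨y, hy, rfl⟩ := hrep M hM
  refine hIRR n (by omega) H hZ y hy ?_
  refine (hfinM.image Subtype.val).subset ?_
  rintro _ ⟨g, hg, rfl⟩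
  exact ⟨_, ⟨⟨g, hg⟩, rfl⟩, THN_pr g hy⟩

end Pool.Agent.TF
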